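import Pool.Agent.W803.LV.C

set_option autoImplicit false

/-! LV-3: all large specialisations of a family split at infinity are irreducible (helper803). -/

namespace Pool.Agent.W803.LV
open Polynomial

/-- a factor of a large specialisation is a specialisation of a polynomial over `ℚ[T]` -/
theorem claim {m : ℕ} (Q : Fin m → ℚ[X]) (C0 : ℝ) (hC0 : 0 ≤ C0) (e : ℕ) (he : e < m)
    (f : Fin e → Fin m) : ∃ (G : ℚ[X][X]) (A : ℝ), G.Monic ∧ G.natDegree = e ∧
    ∀ (a : ℤ), A ≤ |(a : ℝ)| → ∀ (g : ℤ[X]), g.Monic → g.natDegree = e → ∀ η : Fin e → ℂ,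
      g.map (algebraMap ℤ ℂ) = ∏ j, (X - C (η j)) →
      (∀ j, ‖η j / (a : ℂ) - aeval (1 / (a : ℂ)) (Q (f j))‖ ≤ C0 * (1 / |(a : ℝ)|) ^ (m + 1)) →
      g.map (algebraMap ℤ ℚ) = G.map (evalRingHom (a : ℚ)) := by
  classical
  set b : Fin e → ℂ → ℂ := fun j a => a * aeval (1 / a) (Q (f j)) with hb
  have hbL : ∀ j, Lau (b j) := fun j => ⟨1, Q (f j), fun a _ => by rw [pow_one]⟩
  have hcL := coeff_lau (Finset.univ : Finset (Fin e)) b hbL
  choose R B hB0 hB using fun s => (hcL s).poly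
  choose BQ hBQ0 hBQ using fun i => bd0 (Q i)
  set M : ℝ := (∑ i, BQ i) + C0 with hM
  have hM0 : 0 ≤ M := by
    have : 0 ≤ ∑ i, BQ i := Finset.sum_nonneg fun i _ => hBQ0 i
    linarith
  have hBQM : ∀ i, BQ i ≤ ∑ i, BQ i := fun i =>
    Finset.single_le_sum (f := BQ) (fun j _ => hBQ0 j) (Finset.mem_univ i)
  set K : ℝ := e * (1 + M) ^ e * C0 with hK
  have hK0 : 0 ≤ K := by positivity
  choose A hA1 hA using fun s => close_eq (R s) (K + B s)
  set G : ℚ[X][X] := X ^ e + ∑ s ∈ Finset.range e, C (R s) * X ^ s with hG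
  have hGd : (∑ s ∈ Finset.range e, C (R s) * X ^ s : ℚ[X][X]).degree < e := by
    refine (degree_sum_le _ _).trans_lt ?_
    rw [Finset.sup_lt_iff (by exact WithBot.bot_lt_coe e)]
    intro s hs
    rw [Finset.mem_range] at hs
    exact (degree_C_mul_X_pow_le _ _).trans_lt (by exact_mod_cast hs)
  have hGm : G.Monic := monic_X_pow_add hGd
  have hGn : G.natDegree = e := by
    rw [hG, natDegree_add_eq_left_of_degree_lt (by rw [degree_X_pow]; exact hGd), natDegree_X_pow]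
  have hGc : ∀ s, s < e → G.coeff s = R s := by
    intro s hs
    rw [hG, coeff_add, coeff_X_pow, if_neg (by omega), zero_add, finsetSum_coeff]
    rw [Finset.sum_eq_single s]
    · rw [coeff_C_mul, coeff_X_pow, if_pos rfl, mul_one]
    · intro i _ hi
      rw [coeff_C_mul, coeff_X_pow, if_neg (Ne.symm hi), mul_zero]
    · intro h
      exact absurd (Finset.mem_range.2 hs) h
  refine ⟨G, 1 + ∑ s ∈ Finset.range e, A s, hGm, hGn, ?_⟩
  intro a ha g hg hgn η hη hd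
  have hA0 : ∀ s, 0 ≤ A s := fun s => by linarith [hA1 s]
  have ha1 : 1 ≤ |(a : ℝ)| := by
    have : 0 ≤ ∑ s ∈ Finset.range e, A s := Finset.sum_nonneg fun s _ => hA0 s
    linarith
  have hapos : 0 < |(a : ℝ)| := by linarith
  have han : ‖(a : ℂ)‖ = |(a : ℝ)| := Complex.norm_intCast a
  have ha0 : (a : ℂ) ≠ 0 := norm_pos_iff.1 (by rw [han]; exact hapos)
  have hu : ‖(1 / (a : ℂ))‖ ≤ 1 := by
    rw [norm_div, norm_one, han, div_le_one hapos]
    exact ha1
  have hx' : ∀ j ∈ (Finset.univ : Finset (Fin e)), ‖b j a‖ ≤ |(a : ℝ)| * M := by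
    intro j _
    rw [hb]
    show ‖(a : ℂ) * aeval (1 / (a : ℂ)) (Q (f j))‖ ≤ _
    rw [norm_mul, han]
    refine mul_le_mul_of_nonneg_left ?_ hapos.le
    have := hBQ (f j) _ hu
    have := hBQM (f j)
    linarith
  have hpow1 : (1 / |(a : ℝ)|) ^ (m + 1) ≤ 1 := pow_le_one₀ (by positivity) (by
    rw [div_le_one hapos]; exact ha1)
  have hdd : ∀ j ∈ (Finset.univ : Finset (Fin e)), ‖η j - b j a‖ ≤
      C0 * |(a : ℝ)| * (1 / |(a : ℝ)|) ^ (m + 1) := by
    intro j _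
    have e1 : η j - b j a = (a : ℂ) * (η j / (a : ℂ) - aeval (1 / (a : ℂ)) (Q (f j))) := by
      rw [hb]
      field_simp
    rw [e1, norm_mul, han]
    calc |(a : ℝ)| * ‖η j / (a : ℂ) - aeval (1 / (a : ℂ)) (Q (f j))‖ ≤
        |(a : ℝ)| * (C0 * (1 / |(a : ℝ)|) ^ (m + 1)) := mul_le_mul_of_nonneg_left (hd j) hapos.le
      _ = _ := by ring
  have hx : ∀ j ∈ (Finset.univ : Finset (Fin e)), ‖η j‖ ≤ |(a : ℝ)| * M := by
    intro j hj
    have e1 : η j = b j a + (η j - b j a) := by ring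
    rw [e1]
    refine (norm_add_le _ _).trans ?_
    have h1 := hdd j hj
    have h2 : ‖b j a‖ ≤ |(a : ℝ)| * ∑ i, BQ i := by
      rw [hb]
      show ‖(a : ℂ) * aeval (1 / (a : ℂ)) (Q (f j))‖ ≤ _
      rw [norm_mul, han]
      refine mul_le_mul_of_nonneg_left ?_ hapos.le
      exact (hBQ (f j) _ hu).trans (hBQM (f j))
    have h3 : C0 * |(a : ℝ)| * (1 / |(a : ℝ)|) ^ (m + 1) ≤ C0 * |(a : ℝ)| * 1 :=
      mul_le_mul_of_nonneg_left hpow1 (by positivity)
    rw [hM]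
    linarith
  have hδ0 : 0 ≤ C0 * |(a : ℝ)| * (1 / |(a : ℝ)|) ^ (m + 1) := by positivity
  have hdiff := coeff_diff (Finset.univ : Finset (Fin e)) η (fun j => b j a)
    (by positivity : 0 ≤ |(a : ℝ)| * M) hδ0 hx hx' hdd
  rw [Finset.card_univ, Fintype.card_fin] at hdiff
  have hsmall : e * (1 + |(a : ℝ)| * M) ^ e * (C0 * |(a : ℝ)| * (1 / |(a : ℝ)|) ^ (m + 1)) ≤
      K / |(a : ℝ)| := by
    have h1 : (1 + |(a : ℝ)| * M) ^ e ≤ (|(a : ℝ)| * (1 + M)) ^ e :=
      pow_le_pow_left₀ (by positivity) (by nlinarith) e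
    obtain ⟨d, hd'⟩ : ∃ d, m = e + 1 + d := ⟨m - e - 1, by omega⟩
    have h2 : |(a : ℝ)| ^ e * (1 / |(a : ℝ)|) ^ e = 1 := by
      rw [← mul_pow, mul_one_div_cancel hapos.ne', one_pow]
    have h3 : (1 / |(a : ℝ)|) ^ d ≤ 1 := pow_le_one₀ (by positivity) (by
      rw [div_le_one hapos]; exact ha1)
    calc e * (1 + |(a : ℝ)| * M) ^ e * (C0 * |(a : ℝ)| * (1 / |(a : ℝ)|) ^ (m + 1)) ≤
        e * (|(a : ℝ)| * (1 + M)) ^ e * (C0 * |(a : ℝ)| * (1 / |(a : ℝ)|) ^ (m + 1)) := by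
          refine mul_le_mul_of_nonneg_right (mul_le_mul_of_nonneg_left h1 (by positivity)) hδ0
      _ = K * (|(a : ℝ)| ^ e * (1 / |(a : ℝ)|) ^ e) * (|(a : ℝ)| * (1 / |(a : ℝ)|)) *
          (1 / |(a : ℝ)|) * (1 / |(a : ℝ)|) ^ d := by
          rw [hK, hd', mul_pow]
          rw [show e + 1 + d + 1 = e + 1 + 1 + d by ring, pow_add, pow_add, pow_add]
          ring
      _ ≤ K * (|(a : ℝ)| ^ e * (1 / |(a : ℝ)|) ^ e) * (|(a : ℝ)| * (1 / |(a : ℝ)|)) *
          (1 / |(a : ℝ)|) * 1 := mul_le_mul_of_nonneg_left h3 (by positivity)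
      _ = K / |(a : ℝ)| := by
          rw [h2, mul_one_div_cancel hapos.ne']; ring
  have hcoeff : ∀ s, s < e → (g.coeff s : ℚ) = (R s).eval (a : ℚ) := by
    intro s hs
    refine hA s a (g.coeff s) ?_ ?_
    · have h1 := Finset.single_le_sum (f := A) (fun j _ => hA0 j) (Finset.mem_range.2 hs)
      linarith
    · have h1 : ((g.coeff s : ℤ) : ℂ) = (∏ j, (X - C (η j))).coeff s := by
        rw [← hη, coeff_map]
        rfl
      have h2 := hdiff s
      have h3 := hB s (a : ℂ) (by rw [han]; exact ha1)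
      rw [han] at h3
      rw [h1]
      have e1 : (∏ j, (X - C (η j))).coeff s - aeval (a : ℂ) (R s) =
          ((∏ j, (X - C (η j))).coeff s - (∏ j, (X - C (b j a))).coeff s) +
          ((∏ j, (X - C (b j a))).coeff s - aeval (a : ℂ) (R s)) := by ring
      rw [e1, add_div]
      exact (norm_add_le _ _).trans (add_le_add (h2.trans hsmall) h3)
  ext s
  rw [coeff_map, coeff_map]
  rcases lt_trichotomy s e with hs | hs | hs
  · rw [hGc s hs]
    exact hcoeff s hs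
  · rw [hs]
    have h1 : g.coeff e = 1 := by rw [← hgn]; exact hg
    have h2 : G.coeff e = 1 := by
      have := hGm.coeff_natDegree
      rwa [hGn] at this
    rw [h1, h2]
    simp
  · rw [coeff_eq_zero_of_natDegree_lt (by rw [hgn]; exact hs),
      coeff_eq_zero_of_natDegree_lt (by rw [hGn]; exact hs)]
    simp

/-- non divisibility for large specialisations -/
theorem nondvd {F G : ℚ[X][X]} (hG : G.Monic) (h : ¬ G ∣ F) : ∃ A : ℝ, ∀ a : ℤ, A ≤ |(a : ℝ)| →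
    ¬ G.map (evalRingHom (a : ℚ)) ∣ F.map (evalRingHom (a : ℚ)) := by
  have h1 : F %ₘ G ≠ 0 := fun h' => h ((modByMonic_eq_zero_iff_dvd hG).1 h')
  obtain ⟨n, hn⟩ : ∃ n, (F %ₘ G).coeff n ≠ 0 := by
    by_contra hcon
    push Not at hcon
    exact h1 (ext hcon)
  set w := (F %ₘ G).coeff n with hw
  refine ⟨1 + ∑ r ∈ w.roots.toFinset, |(r : ℝ)|, fun a ha hd => ?_⟩
  have h2 : (F %ₘ G).map (evalRingHom (a : ℚ)) = 0 := by
    rw [map_modByMonic _ hG]
    exact (modByMonic_eq_zero_iff_dvd (hG.map _)).2 hd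
  have h3 : w.eval (a : ℚ) = 0 := by
    have h4 := congrArg (fun P => coeff P n) h2
    simpa [coeff_map] using h4
  have h5 : (a : ℚ) ∈ w.roots.toFinset := by
    rw [Multiset.mem_toFinset, mem_roots hn]
    exact h3
  have h6 := Finset.single_le_sum (f := fun r : ℚ => |(r : ℝ)|) (fun r _ => abs_nonneg _) h5
  have h7 : |(((a : ℚ) : ℚ) : ℝ)| = |(a : ℝ)| := by simp
  simp only [h7] at h6
  linarith

end Pool.Agent.W803.LV

namespace Pool.Agent.W803.LV
open Polynomial Pool.Agent.W257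

theorem main : S_irr := by
  classical
  intro m ρ P hm hρ hdeg htop hirr
  obtain ⟨Q, C0, A0, hC0, hA0, hexp⟩ := expand hm ρ hρ P hdeg htop m
  set F : ℚ[X][X] := MvPolynomial.aeval ![(X : ℚ[X][X]), C X] P with hF
  have hFirr : Irreducible F := irr_two P hirr
  have hFd : F.natDegree = m := (monic_spec ρ P hdeg htop ℚ[X] X).2
  have hcl : ∀ x : (Σ e : Fin m, (Fin e → Fin m)), ∃ (G : ℚ[X][X]) (A : ℝ), G.Monic ∧
      G.natDegree = (x.1 : ℕ) ∧ ∀ (a : ℤ), A ≤ |(a : ℝ)| → ∀ (g : ℤ[X]), g.Monic →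
      g.natDegree = (x.1 : ℕ) → ∀ η : Fin x.1 → ℂ, g.map (algebraMap ℤ ℂ) = ∏ j, (X - C (η j)) →
      (∀ j, ‖η j / (a : ℂ) - aeval (1 / (a : ℂ)) (Q (x.2 j))‖ ≤ C0 * (1 / |(a : ℝ)|) ^ (m + 1)) →
      g.map (algebraMap ℤ ℚ) = G.map (evalRingHom (a : ℚ)) := fun x =>
    claim Q C0 hC0 x.1 x.1.2 x.2
  choose G A hGm hGd hGA using hcl
  have hnd : ∀ x : (Σ e : Fin m, (Fin e → Fin m)), ∃ A' : ℝ, 0 < (x.1 : ℕ) → ∀ a : ℤ,
      A' ≤ |(a : ℝ)| → ¬ (G x).map (evalRingHom (a : ℚ)) ∣ F.map (evalRingHom (a : ℚ)) := by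
    intro x
    by_cases hx : 0 < (x.1 : ℕ)
    · have h1 : ¬ G x ∣ F := by
        rintro ⟨H, hH⟩
        rcases hFirr.isUnit_or_isUnit hH with hu | hu
        · have h2 := natDegree_eq_zero_of_isUnit hu
          rw [hGd] at h2
          omega
        · have h2 := natDegree_eq_zero_of_isUnit hu
          have h3 : F.natDegree = (G x).natDegree + H.natDegree := by
            rw [hH, natDegree_mul (hGm x).ne_zero hu.ne_zero]
          rw [hFd, hGd, h2] at h3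
          have := x.1.2
          omega
      obtain ⟨A', hA'⟩ := nondvd (hGm x) h1
      exact ⟨A', fun _ => hA'⟩
    · exact ⟨0, fun h => absurd h hx⟩
  choose A' hA' using hnd
  set T : ℝ := A0 + ∑ x, (|A x| + |A' x|) with hT
  refine ⟨⌈T⌉₊, fun a ha => ?_⟩
  have haT : T ≤ |(a : ℝ)| := by
    have h1 : T ≤ (⌈T⌉₊ : ℝ) := Nat.le_ceil T
    have h2 : ((⌈T⌉₊ : ℕ) : ℝ) ≤ (a.natAbs : ℝ) := by exact_mod_cast ha
    have h3 : (a.natAbs : ℝ) = |(a : ℝ)| := by
      rw [← Int.cast_abs, Int.abs_eq_natAbs]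
      simp
    linarith
  have hS0 : 0 ≤ ∑ x, (|A x| + |A' x|) := Finset.sum_nonneg fun x _ => by positivity
  have haA0 : A0 ≤ |(a : ℝ)| := by linarith
  have hsing : ∀ x, |A x| + |A' x| ≤ ∑ x, (|A x| + |A' x|) := fun x =>
    Finset.single_le_sum (f := fun x => |A x| + |A' x|) (fun y _ => by positivity)
      (Finset.mem_univ x)
  have haA : ∀ x, A x ≤ |(a : ℝ)| := fun x => by
    have := hsing x
    have := le_abs_self (A x)
    have := abs_nonneg (A' x)
    linarith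
  have haA' : ∀ x, A' x ≤ |(a : ℝ)| := fun x => by
    have := hsing x
    have := le_abs_self (A' x)
    have := abs_nonneg (A x)
    linarith
  -- integral version
  set q : ℤ[X] := MvPolynomial.aeval ![(X : ℤ[X]), C a] P with hq
  obtain ⟨hqm, hqd⟩ := monic_spec ρ P hdeg htop ℤ a
  have hqQ : q.map (algebraMap ℤ ℚ) = MvPolynomial.aeval ![(X : ℚ[X]), C (a : ℚ)] P :=
    map_spec P (algebraMap ℤ ℚ) a
  have hFQ : F.map (evalRingHom (a : ℚ)) = MvPolynomial.aeval ![(X : ℚ[X]), C (a : ℚ)] P := by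
    have h := map_spec P (evalRingHom (a : ℚ)) (X : ℚ[X])
    rw [coe_evalRingHom, eval_X] at h
    exact h
  have hqC : q.map (algebraMap ℤ ℂ) = MvPolynomial.aeval ![(X : ℂ[X]), C (a : ℂ)] P :=
    map_spec P (algebraMap ℤ ℂ) a
  rw [← hqQ, ← hqm.irreducible_iff_irreducible_map_fraction_map]
  have hq1 : q ≠ 1 := by
    intro h
    rw [← hq, h, natDegree_one] at hqd
    omega
  rw [hqm.irreducible_iff_lt_natDegree_lt hq1]
  intro g hg hgd hgq
  rw [Finset.mem_Ioc, ← hq, hqd] at hgd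
  have hem : g.natDegree < m := by omega
  -- complex roots
  have hgC : (g.map (algebraMap ℤ ℂ)).Monic := hg.map _
  have hgCd : (g.map (algebraMap ℤ ℂ)).natDegree = g.natDegree := hg.natDegree_map _
  obtain ⟨η, hη⟩ : ∃ η : Fin g.natDegree → ℂ, g.map (algebraMap ℤ ℂ) = ∏ j, (X - C (η j)) := by
    have h := exists_roots _ hgC
    rw [hgCd] at h
    exact h
  have hroot : ∀ j, MvPolynomial.aeval ![η j, (a : ℂ)] P = 0 := by
    intro j
    have h1 : (g.map (algebraMap ℤ ℂ)).eval (η j) = 0 := by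
      rw [hη, eval_prod]
      exact Finset.prod_eq_zero (Finset.mem_univ j) (by simp)
    have h2 : (q.map (algebraMap ℤ ℂ)).eval (η j) = 0 := by
      obtain ⟨h, hh⟩ := hgq
      rw [hq, hh, Polynomial.map_mul, eval_mul, h1, zero_mul]
    rw [hqC] at h2
    have h3 := MvPolynomial.map_aeval (![(X : ℂ[X]), C (a : ℂ)]) (evalRingHom (η j)) P
    rw [coe_evalRingHom, h2] at h3
    rw [h3, MvPolynomial.aeval_def, MvPolynomial.coe_eval₂Hom]
    congr 1
    · exact RingHom.ext_int _ _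
    · funext i
      fin_cases i
      · simp
      · simp
  have han : ‖(a : ℂ)‖ = |(a : ℝ)| := Complex.norm_intCast a
  have hf : ∀ j, ∃ i, ‖η j / (a : ℂ) - aeval (1 / (a : ℂ)) (Q i)‖ ≤
      C0 * (1 / |(a : ℝ)|) ^ (m + 1) := by
    intro j
    have h := hexp (η j) (a : ℂ) (by rw [han]; exact haA0) (hroot j)
    rwa [han] at h
  choose f hf using hf
  have h1 := hGA ⟨⟨g.natDegree, hem⟩, f⟩ a (haA _) g hg rfl η hη hf
  refine hA' ⟨⟨g.natDegree, hem⟩, f⟩ hgd.1 a (haA' _) ?_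
  rw [← h1, hFQ, ← hqQ]
  obtain ⟨h, hh⟩ := hgq
  exact ⟨h.map (algebraMap ℤ ℚ), by rw [← Polynomial.map_mul, ← hh]⟩

end Pool.Agent.W803.LV
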