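import Pool.Agent.W257.LStm

set_option autoImplicit false

/-! LV-3, algebraic part: Newton approximations of the roots at infinity (helper803). -/

namespace Pool.Agent.W803.LV
open Polynomial

/-- Newton iteration -/
theorem newton (p : ℚ[X][X]) (r : ℚ) (h0 : (p.map (evalRingHom 0)).eval r = 0)
    (h1 : (derivative (p.map (evalRingHom 0))).eval r ≠ 0) (k : ℕ) :
    ∃ Q : ℚ[X], Q.eval 0 = r ∧ X ^ (k + 1) ∣ p.eval Q := by
  have hev : ∀ (f : ℚ[X][X]) (Q : ℚ[X]), Q.eval 0 = r →
      (f.eval Q).eval 0 = (f.map (evalRingHom 0)).eval r := by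
    intro f Q hQ
    rw [← hQ]
    exact (Polynomial.eval_map_apply (evalRingHom (0 : ℚ)) Q (p := f)).symm
  induction k with
  | zero =>
    refine ⟨C r, by simp, ?_⟩
    rw [zero_add, pow_one, X_dvd_iff, coeff_zero_eq_eval_zero, hev p (C r) (by simp), h0]
  | succ k ih =>
    obtain ⟨Q, hQ, hd⟩ := ih
    set D := (derivative (p.map (evalRingHom 0))).eval r with hD
    obtain ⟨s, hs⟩ := binomExpansion p Q (-(C D⁻¹ * p.eval Q))
    refine ⟨Q + -(C D⁻¹ * p.eval Q), ?_, ?_⟩
    · rw [eval_add, eval_neg, eval_mul, hev p Q hQ, h0, mul_zero, neg_zero, add_zero, hQ]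
    · rw [hs]
      have e : p.eval Q + (derivative p).eval Q * -(C D⁻¹ * p.eval Q) +
          s * (-(C D⁻¹ * p.eval Q)) ^ 2 =
          p.eval Q * (1 - C D⁻¹ * (derivative p).eval Q) + s * C D⁻¹ ^ 2 * (p.eval Q) ^ 2 := by
        ring
      rw [e]
      refine dvd_add ?_ ?_
      · rw [pow_succ]
        refine mul_dvd_mul hd ?_
        rw [X_dvd_iff, coeff_zero_eq_eval_zero, eval_sub, eval_mul, hev _ Q hQ, ← derivative_map,
          eval_one, eval_C, inv_mul_cancel₀ h1, sub_self]
      · refine Dvd.dvd.mul_left ?_ _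
        refine (pow_dvd_pow X (by omega : k + 1 + 1 ≤ (k + 1) * 2)).trans ?_
        rw [pow_mul]
        exact pow_dvd_pow_of_dvd hd 2

/-- interpolation -/
theorem div_all {m : ℕ} (Q : Fin m → ℚ[X]) (hQ : Function.Injective fun i => (Q i).eval 0)
    (n : ℕ) : ∀ r : ℚ[X][X], r.degree < m → (∀ i, X ^ n ∣ r.eval (Q i)) → C (X ^ n) ∣ r := by
  induction n with
  | zero => intro r _ _; simp
  | succ n ih =>
    intro r hr hd
    have h0 : r.map (evalRingHom 0) = 0 := by
      refine Polynomial.eq_zero_of_degree_lt_of_eval_index_eq_zero (s := Finset.univ)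
        (v := fun i : Fin m => (Q i).eval 0) (fun i _ j _ h => hQ h) ?_ ?_
      · rw [Finset.card_univ, Fintype.card_fin]
        exact (degree_map_le).trans_lt hr
      · intro i _
        have h1 : (r.eval (Q i)).eval 0 = 0 := by
          rw [← coeff_zero_eq_eval_zero, ← X_dvd_iff]
          exact (dvd_pow_self X (Nat.succ_ne_zero n)).trans (hd i)
        exact (Polynomial.eval_map_apply (evalRingHom (0 : ℚ)) (Q i) (p := r)).trans h1
    have h1 : C X ∣ r := by
      rw [C_dvd_iff_dvd_coeff]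
      intro j
      rw [X_dvd_iff, coeff_zero_eq_eval_zero]
      have := congrArg (fun P => coeff P j) h0
      simpa using this
    obtain ⟨r', rfl⟩ := h1
    have hr' : r'.degree < m := by
      refine lt_of_le_of_lt ?_ hr
      rw [degree_mul]
      have : (0 : WithBot ℕ) ≤ (C X : ℚ[X][X]).degree := by
        rw [degree_C X_ne_zero]
      calc r'.degree = 0 + r'.degree := (zero_add _).symm
        _ ≤ _ := add_le_add this le_rfl
    rw [pow_succ, mul_comm, C_mul]
    refine mul_dvd_mul_left _ (ih r' hr' fun i => ?_)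
    have h2 := hd i
    rw [eval_mul, eval_C, pow_succ, mul_comm] at h2
    exact (mul_dvd_mul_iff_left X_ne_zero).1 h2

/-- factorisation modulo `u^(k+1)` -/
theorem factor {m : ℕ} (ρ : Fin m → ℤ) (hρ : Function.Injective ρ) (p1 : ℚ[X][X])
    (hp1 : p1.degree < m) (k : ℕ) :
    ∃ (Q : Fin m → ℚ[X]) (E : ℚ[X][X]), (∀ i, (Q i).eval 0 = ρ i) ∧ E.degree < m ∧
      (∏ i, (X - C (C (ρ i : ℚ))) + C X * p1 : ℚ[X][X]) = ∏ i, (X - C (Q i)) +
        C (X ^ (k + 1)) * E := by
  classical
  set p : ℚ[X][X] := ∏ i, (X - C (C (ρ i : ℚ))) + C X * p1 with hp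
  have hp0 : p.map (evalRingHom 0) = ∏ i, (X - C (ρ i : ℚ)) := by
    rw [hp, Polynomial.map_add, Polynomial.map_mul, Polynomial.map_prod]
    simp
  have hQ : ∀ i, ∃ Q : ℚ[X], Q.eval 0 = ρ i ∧ X ^ (k + 1) ∣ p.eval Q := by
    intro i
    refine newton p (ρ i) ?_ ?_ k
    · rw [hp0, eval_prod]
      exact Finset.prod_eq_zero (Finset.mem_univ i) (by simp)
    · rw [hp0, ← Finset.mul_prod_erase _ _ (Finset.mem_univ i), derivative_mul]
      simp only [derivative_sub, derivative_X, derivative_C, sub_zero, one_mul, eval_add, eval_mul,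
        eval_sub, eval_X, eval_C, sub_self, zero_mul, add_zero, eval_prod]
      rw [Finset.prod_ne_zero_iff]
      intro j hj
      rw [Finset.mem_erase] at hj
      rw [sub_ne_zero]
      intro h
      exact hj.1 (hρ (by exact_mod_cast h.symm))
  choose Q hQ0 hQd using hQ
  have hmon : (∏ i, (X - C (Q i)) : ℚ[X][X]).Monic := monic_prod_of_monic _ _ fun i _ =>
    monic_X_sub_C _
  have hmon' : (∏ i, (X - C (C (ρ i : ℚ))) : ℚ[X][X]).Monic := monic_prod_of_monic _ _ fun i _ =>
    monic_X_sub_C _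
  have hdeg1 : (∏ i, (X - C (Q i)) : ℚ[X][X]).degree = m := by
    rw [degree_prod]
    simp
  have hdeg2 : (∏ i, (X - C (C (ρ i : ℚ))) : ℚ[X][X]).degree = m := by
    rw [degree_prod, Finset.sum_congr rfl fun i _ => degree_X_sub_C _]
    simp
  have hr : (p - ∏ i, (X - C (Q i))).degree < m := by
    have e : p - ∏ i, (X - C (Q i)) = (∏ i, (X - C (C (ρ i : ℚ))) - ∏ i, (X - C (Q i))) +
        C X * p1 := by
      rw [hp]; ring
    rw [e]
    refine (degree_add_le _ _).trans_lt (max_lt ?_ ?_)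
    · have := degree_sub_lt_left (hdeg2.trans hdeg1.symm) hmon'.ne_zero
        (hmon'.leadingCoeff.trans hmon.leadingCoeff.symm)
      rwa [hdeg2] at this
    · rw [degree_mul, degree_C X_ne_zero, zero_add]
      exact hp1
  obtain ⟨E, hE⟩ := div_all Q (fun i j h => by
      have h' : (Q i).eval 0 = (Q j).eval 0 := h
      rw [hQ0, hQ0] at h'
      exact hρ (by exact_mod_cast h')) (k + 1) (p - ∏ i, (X - C (Q i))) hr (by
    intro i
    rw [eval_sub, eval_prod, Finset.prod_eq_zero (Finset.mem_univ i) (by simp), sub_zero]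
    exact hQd i)
  refine ⟨Q, E, hQ0, ?_, ?_⟩
  · refine lt_of_le_of_lt ?_ hr
    rw [hE, degree_mul]
    have : (0 : WithBot ℕ) ≤ (C (X ^ (k + 1)) : ℚ[X][X]).degree := by
      rw [degree_C (pow_ne_zero _ X_ne_zero)]
    calc E.degree = 0 + E.degree := (zero_add _).symm
      _ ≤ _ := add_le_add this le_rfl
  · rw [← hE]; ring

/-! ### evaluation -/

/-- evaluation of a polynomial in `ξ` over `ℚ[u]` -/
noncomputable def ev (ξ u : ℂ) : ℚ[X][X] →+* ℂ :=
  eval₂RingHom (eval₂RingHom (algebraMap ℚ ℂ) u) ξ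

theorem ev_X (ξ u : ℂ) : ev ξ u X = ξ := by simp [ev]
theorem ev_C (ξ u : ℂ) (Q : ℚ[X]) : ev ξ u (C Q) = aeval u Q := by
  simp [ev, aeval_def]

/-- the reversed polynomial of `P`: `P(y, a) = a^m p(y/a, 1/a)` -/
theorem reversed {m : ℕ} (ρ : Fin m → ℤ) (P : MvPolynomial (Fin 2) ℤ) (hdeg : P.totalDegree = m)
    (htop : MvPolynomial.homogeneousComponent m P
      = ∏ i, (MvPolynomial.X 0 - MvPolynomial.C (ρ i) * MvPolynomial.X 1)) :
    ∃ p1 : ℚ[X][X], p1.degree < m ∧ ∀ (y : ℂ) (a : ℂ), a ≠ 0 →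
      MvPolynomial.aeval ![y, a] P =
        a ^ m * ev (y / a) (1 / a) (∏ i, (X - C (C (ρ i : ℚ))) + C X * p1) := by
  classical
  have hsum := MvPolynomial.sum_homogeneousComponent P
  rw [hdeg, Finset.sum_range_succ] at hsum
  -- one homogeneous component
  have hcomp : ∀ (j : ℕ) (F : MvPolynomial (Fin 2) ℤ), F.IsHomogeneous j → ∀ y a : ℂ, a ≠ 0 →
      MvPolynomial.aeval ![y, a] F = a ^ j * MvPolynomial.aeval ![y / a, 1] F := by
    intro j F hF y a ha
    have h1 : (![y, a] : Fin 2 → ℂ) = fun i => a * (![y / a, 1] : Fin 2 → ℂ) i := by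
      ext i
      fin_cases i
      · simp; field_simp
      · simp
    rw [h1, MvPolynomial.aeval_def, MvPolynomial.aeval_def, MvPolynomial.eval₂_eq',
      MvPolynomial.eval₂_eq', Finset.mul_sum]
    refine Finset.sum_congr rfl fun d hd => ?_
    have h2 : d 0 + d 1 = j := by
      have h3 := hF (MvPolynomial.mem_support_iff.1 hd)
      rw [Finsupp.weight_apply, Finsupp.sum_fintype _ _ (by simp)] at h3
      simpa using h3
    rw [Fin.prod_univ_two, Fin.prod_univ_two, ← h2, mul_pow, mul_pow, pow_add]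
    ring
  have hev : ∀ (F : MvPolynomial (Fin 2) ℤ) (ξ u : ℂ),
      ev ξ u (MvPolynomial.aeval ![(X : ℚ[X][X]), 1] F) = MvPolynomial.aeval ![ξ, 1] F := by
    intro F ξ u
    have h1 := MvPolynomial.map_aeval (![(X : ℚ[X][X]), 1]) (ev ξ u) F
    rw [h1, MvPolynomial.aeval_def, MvPolynomial.coe_eval₂Hom]
    congr 1
    · exact RingHom.ext_int _ _
    · funext i
      fin_cases i
      · simp [ev_X]
      · simp
  have hdegF : ∀ (j : ℕ) (F : MvPolynomial (Fin 2) ℤ), F.IsHomogeneous j →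
      (MvPolynomial.aeval ![(X : ℚ[X][X]), 1] F).natDegree ≤ j := by
    intro j F hF
    rw [MvPolynomial.aeval_def, MvPolynomial.eval₂_eq']
    refine natDegree_sum_le_of_forall_le _ _ fun d hd => ?_
    have h2 : d 0 + d 1 = j := by
      have h3 := hF (MvPolynomial.mem_support_iff.1 hd)
      rw [Finsupp.weight_apply, Finsupp.sum_fintype _ _ (by simp)] at h3
      simpa using h3
    rw [Fin.prod_univ_two]
    have e : (algebraMap ℤ ℚ[X][X]) (MvPolynomial.coeff d F) *
        ((![(X : ℚ[X][X]), 1] : Fin 2 → ℚ[X][X]) 0 ^ d 0 * (![(X : ℚ[X][X]), 1] : Fin 2 → ℚ[X][X]) 1 ^ d 1)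
        = C (algebraMap ℤ ℚ[X] (MvPolynomial.coeff d F)) * X ^ d 0 := by
      simp
    rw [e]
    exact (natDegree_C_mul_X_pow_le _ _).trans (by omega)
  refine ⟨∑ j ∈ Finset.range m, C (X ^ (m - 1 - j)) * MvPolynomial.aeval ![(X : ℚ[X][X]), 1]
    (MvPolynomial.homogeneousComponent j P), ?_, ?_⟩
  · refine (degree_sum_le _ _).trans_lt ?_
    rw [Finset.sup_lt_iff (by exact WithBot.bot_lt_coe m)]
    intro j hj
    rw [Finset.mem_range] at hj
    refine degree_le_natDegree.trans_lt ?_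
    refine lt_of_le_of_lt ?_ (by exact_mod_cast hj : ((j : ℕ) : WithBot ℕ) < m)
    have h1 : (C (X ^ (m - 1 - j)) * MvPolynomial.aeval ![(X : ℚ[X][X]), 1]
      (MvPolynomial.homogeneousComponent j P)).natDegree ≤ j :=
      (natDegree_C_mul_le _ _).trans
        (hdegF j _ (MvPolynomial.homogeneousComponent_isHomogeneous j P))
    exact_mod_cast h1
  · intro y a ha
    have h1 : (MvPolynomial.aeval ![y, a] P : ℂ) =
        MvPolynomial.aeval ![y, a] (∑ x ∈ Finset.range m, MvPolynomial.homogeneousComponent x P) +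
        MvPolynomial.aeval ![y, a] (MvPolynomial.homogeneousComponent m P) := by
      rw [← map_add, hsum]
    rw [h1, map_add, mul_add, add_comm]
    congr 1
    · rw [hcomp m _ (MvPolynomial.homogeneousComponent_isHomogeneous m P) y a ha, htop]
      congr 1
      rw [map_prod, map_prod]
      refine Finset.prod_congr rfl fun i _ => ?_
      simp [ev_X]
    · rw [map_sum, map_mul, map_sum, ev_C, Finset.mul_sum, Finset.mul_sum]
      refine Finset.sum_congr rfl fun j hj => ?_
      rw [Finset.mem_range] at hj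
      rw [hcomp j _ (MvPolynomial.homogeneousComponent_isHomogeneous j P) y a ha, map_mul, hev,
        ev_C]
      simp only [map_pow, aeval_X]
      rw [← mul_assoc, ← mul_assoc]
      congr 1
      obtain ⟨d, rfl⟩ : ∃ d, m = j + 1 + d := ⟨m - j - 1, by omega⟩
      rw [show j + 1 + d - 1 - j = d by omega]
      have h3 : a * (1 / a) = 1 := mul_one_div_cancel ha
      have h4 : a ^ d * (1 / a) ^ d = 1 := by rw [← mul_pow, h3, one_pow]
      calc a ^ j = a ^ j * (a * (1 / a)) * (a ^ d * (1 / a) ^ d) := by rw [h3, h4, mul_one, mul_one]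
        _ = _ := by ring

end Pool.Agent.W803.LV
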