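import Pool.Agent.W803.LV.A

set_option autoImplicit false

/-! LV-3, analytic part (helper803). -/

namespace Pool.Agent.W803.LV
open Polynomial

theorem bd0 (c : ℚ[X]) : ∃ C : ℝ, 0 ≤ C ∧ ∀ u : ℂ, ‖u‖ ≤ 1 → ‖aeval u c‖ ≤ C := by
  refine ⟨∑ i ∈ Finset.range (c.natDegree + 1), ‖(c.coeff i : ℂ)‖, by positivity, fun u hu => ?_⟩
  rw [aeval_eq_sum_range]
  refine (norm_sum_le _ _).trans (Finset.sum_le_sum fun i _ => ?_)
  rw [Rat.smul_def, norm_mul, norm_pow]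
  calc ‖(c.coeff i : ℂ)‖ * ‖u‖ ^ i ≤ ‖(c.coeff i : ℂ)‖ * 1 :=
        mul_le_mul_of_nonneg_left (pow_le_one₀ (norm_nonneg _) hu) (norm_nonneg _)
    _ = _ := mul_one _

theorem bd1 (F : ℚ[X][X]) {m : ℕ} (hm : 1 ≤ m) (hF : F.degree < m) :
    ∃ C : ℝ, 0 ≤ C ∧ ∀ ξ u : ℂ, ‖u‖ ≤ 1 → ‖ev ξ u F‖ ≤ C * (1 + ‖ξ‖) ^ (m - 1) := by
  choose C hC0 hC using fun i => bd0 (F.coeff i)
  refine ⟨∑ i ∈ Finset.range (F.natDegree + 1), C i, Finset.sum_nonneg fun i _ => hC0 i,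
    fun ξ u hu => ?_⟩
  have hnd : F.natDegree ≤ m - 1 := by
    by_cases h0 : F = 0
    · rw [h0, natDegree_zero]; exact Nat.zero_le _
    · have := (natDegree_lt_iff_degree_lt h0).2 hF
      omega
  have e : ev ξ u F = ∑ i ∈ Finset.range (F.natDegree + 1), aeval u (F.coeff i) * ξ ^ i := by
    conv_lhs => rw [F.as_sum_range_C_mul_X_pow]
    rw [map_sum]
    refine Finset.sum_congr rfl fun i _ => ?_
    rw [map_mul, map_pow, ev_C, ev_X]
  rw [e, Finset.sum_mul]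
  refine (norm_sum_le _ _).trans (Finset.sum_le_sum fun i hi => ?_)
  rw [Finset.mem_range] at hi
  rw [norm_mul, norm_pow]
  refine mul_le_mul (hC i u hu) ?_ (by positivity) (hC0 i)
  calc ‖ξ‖ ^ i ≤ (1 + ‖ξ‖) ^ i := pow_le_pow_left₀ (norm_nonneg _) (by linarith) i
    _ ≤ (1 + ‖ξ‖) ^ (m - 1) := pow_le_pow_right₀ (by linarith [norm_nonneg ξ]) (by omega)

theorem near0 (Q : ℚ[X]) (r : ℤ) (h : Q.eval 0 = r) :
    ∃ C : ℝ, 0 ≤ C ∧ ∀ u : ℂ, ‖u‖ ≤ 1 → ‖aeval u Q - r‖ ≤ C * ‖u‖ := by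
  obtain ⟨Q', hQ'⟩ : X ∣ Q - C (r : ℚ) := by
    rw [X_dvd_iff, coeff_zero_eq_eval_zero, eval_sub, eval_C, h, sub_self]
  obtain ⟨C, hC0, hC⟩ := bd0 Q'
  refine ⟨C, hC0, fun u hu => ?_⟩
  have e : aeval u Q - r = u * aeval u Q' := by
    have h1 := congrArg (aeval u) hQ'
    rw [map_sub, map_mul, aeval_X, aeval_C] at h1
    simpa using h1
  rw [e, norm_mul, mul_comm]
  exact mul_le_mul_of_nonneg_right (hC u hu) (norm_nonneg _)

/-- expansions of the complex roots -/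
theorem expand {m : ℕ} (hm : 1 ≤ m) (ρ : Fin m → ℤ) (hρ : Function.Injective ρ)
    (P : MvPolynomial (Fin 2) ℤ) (hdeg : P.totalDegree = m)
    (htop : MvPolynomial.homogeneousComponent m P
      = ∏ i, (MvPolynomial.X 0 - MvPolynomial.C (ρ i) * MvPolynomial.X 1)) (k : ℕ) :
    ∃ (Q : Fin m → ℚ[X]) (C A : ℝ), 0 ≤ C ∧ 1 ≤ A ∧ ∀ (y a : ℂ), A ≤ ‖a‖ →
      MvPolynomial.aeval ![y, a] P = 0 →
      ∃ i, ‖y / a - aeval (1 / a) (Q i)‖ ≤ C * (1 / ‖a‖) ^ (k + 1) := by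
  classical
  obtain ⟨p1, hp1, hP⟩ := reversed ρ P hdeg htop
  obtain ⟨Q, E, hQ0, hE, hfac⟩ := factor ρ hρ p1 hp1 k
  obtain ⟨CE, hCE0, hCE⟩ := bd1 E hm hE
  choose CQ hCQ0 hCQ using fun i => near0 (Q i) (ρ i) (hQ0 i)
  choose BQ hBQ0 hBQ using fun i => bd0 (Q i)
  set S : ℝ := ∑ i, CQ i with hS
  have hS0 : 0 ≤ S := Finset.sum_nonneg fun i _ => hCQ0 i
  have hCQS : ∀ i, CQ i ≤ S := fun i => Finset.single_le_sum (f := CQ) (fun j _ => hCQ0 j)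
    (Finset.mem_univ i)
  set M : ℝ := 1 + ∑ i, BQ i with hM
  have hM1 : 1 ≤ M := by
    have : 0 ≤ ∑ i, BQ i := Finset.sum_nonneg fun i _ => hBQ0 i
    linarith
  have hBQM : ∀ i, BQ i ≤ M := fun i => by
    have := Finset.single_le_sum (f := BQ) (fun j _ => hBQ0 j) (Finset.mem_univ i)
    linarith
  set c : ℝ := 1 / (8 * (M + 1)) with hc
  have hc0 : 0 < c := by positivity
  refine ⟨Q, CE / c ^ (m - 1), 8 * S + 1, by positivity, by linarith, fun y a ha hy => ?_⟩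
  have hapos : 0 < ‖a‖ := by linarith
  have ha0 : a ≠ 0 := norm_pos_iff.1 hapos
  have hu : ‖(1 / a : ℂ)‖ = 1 / ‖a‖ := by rw [norm_div, norm_one]
  have hu1 : ‖(1 / a : ℂ)‖ ≤ 1 := by
    rw [hu, div_le_one hapos]
    linarith
  have hSu : S * ‖(1 / a : ℂ)‖ ≤ 1 / 8 := by
    rw [hu, mul_one_div, div_le_iff₀ hapos]
    linarith
  set ξ := y / a with hξ
  set q : Fin m → ℂ := fun i => aeval (1 / a) (Q i) with hq
  have hqr : ∀ i, ‖q i - ρ i‖ ≤ 1 / 8 := fun i =>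
    ((hCQ i _ hu1).trans (mul_le_mul_of_nonneg_right (hCQS i) (norm_nonneg _))).trans hSu
  have hqM : ∀ i, ‖q i‖ ≤ M := fun i => (hBQ i _ hu1).trans (hBQM i)
  have hqq : ∀ i j, i ≠ j → 3 / 4 ≤ ‖q i - q j‖ := by
    intro i j hij
    have h1 : (1 : ℝ) ≤ ‖((ρ i : ℂ) - ρ j)‖ := by
      have h2 : ρ i - ρ j ≠ 0 := sub_ne_zero.2 fun h => hij (hρ h)
      have h3 : ((ρ i : ℂ) - ρ j) = ((ρ i - ρ j : ℤ) : ℂ) := by push_cast; ring
      rw [h3, Complex.norm_intCast]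
      exact_mod_cast Int.one_le_abs h2
    have h2 : ((ρ i : ℂ) - ρ j) = (q i - q j) - (q i - ρ i) + (q j - ρ j) := by ring
    have h3 : ‖((ρ i : ℂ) - ρ j)‖ ≤ ‖q i - q j‖ + ‖q i - ρ i‖ + ‖q j - ρ j‖ := by
      rw [h2]
      exact (norm_add_le _ _).trans (add_le_add (norm_sub_le _ _) le_rfl)
    have := hqr i
    have := hqr j
    linarith
  have hne : (Finset.univ : Finset (Fin m)).Nonempty := ⟨⟨0, by omega⟩, Finset.mem_univ _⟩
  obtain ⟨i, -, hmin⟩ := Finset.exists_min_image Finset.univ (fun i => ‖ξ - q i‖) hne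
  refine ⟨i, ?_⟩
  -- the product
  have hprod : (∏ j, (ξ - q j)) + (1 / a) ^ (k + 1) * ev ξ (1 / a) E = 0 := by
    rw [hP y a ha0, hfac] at hy
    have h1 := (mul_eq_zero.1 hy).resolve_left (pow_ne_zero m ha0)
    rw [map_add, map_mul, map_prod, ev_C] at h1
    rw [← h1]
    congr 1
    · refine Finset.prod_congr rfl fun j _ => ?_
      rw [map_sub, ev_X, ev_C]
    · rw [map_pow, aeval_X]
  have hnorm : ∏ j, ‖ξ - q j‖ ≤ (1 / ‖a‖) ^ (k + 1) * (CE * (1 + ‖ξ‖) ^ (m - 1)) := by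
    rw [← norm_prod, eq_neg_of_add_eq_zero_left hprod, norm_neg, norm_mul, norm_pow, hu]
    exact mul_le_mul_of_nonneg_left (hCE ξ _ hu1) (by positivity)
  have hfar : ∀ j ∈ Finset.univ.erase i, c * (1 + ‖ξ‖) ≤ ‖ξ - q j‖ := by
    intro j hj
    rw [Finset.mem_erase] at hj
    have h1 : 3 / 8 ≤ ‖ξ - q j‖ := by
      have h2 := hmin j (Finset.mem_univ j)
      have h3 := hqq i j (Ne.symm hj.1)
      have h4 : ‖q i - q j‖ ≤ ‖ξ - q j‖ + ‖ξ - q i‖ := by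
        have : q i - q j = (ξ - q j) - (ξ - q i) := by ring
        rw [this]
        exact norm_sub_le _ _
      linarith
    have h2 : ‖ξ‖ - M ≤ ‖ξ - q j‖ := by
      have := norm_sub_norm_le ξ (q j)
      have := hqM j
      linarith
    have hcM : c * (8 * (M + 1)) = 1 := by rw [hc]; field_simp
    rcases le_or_gt ‖ξ‖ (2 * M + 1) with h3 | h3
    · have : c * (1 + ‖ξ‖) ≤ c * (2 * (M + 1)) := mul_le_mul_of_nonneg_left (by linarith) hc0.le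
      linarith
    · have h4 : c ≤ 1 / 2 := by nlinarith
      have : c * (1 + ‖ξ‖) ≤ 1 / 2 * (1 + ‖ξ‖) :=
        mul_le_mul_of_nonneg_right h4 (by positivity)
      linarith
  have hlow : (c * (1 + ‖ξ‖)) ^ (m - 1) ≤ ∏ j ∈ Finset.univ.erase i, ‖ξ - q j‖ := by
    have h1 := Finset.prod_le_prod (s := Finset.univ.erase i) (f := fun _ => c * (1 + ‖ξ‖))
      (g := fun j => ‖ξ - q j‖) (fun _ _ => by positivity) hfar
    rwa [Finset.prod_const, Finset.card_erase_of_mem (Finset.mem_univ i), Finset.card_univ,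
      Fintype.card_fin] at h1
  rw [← Finset.mul_prod_erase _ _ (Finset.mem_univ i)] at hnorm
  have hfin : ‖ξ - q i‖ * (c ^ (m - 1)) * (1 + ‖ξ‖) ^ (m - 1) ≤
      (1 / ‖a‖) ^ (k + 1) * CE * (1 + ‖ξ‖) ^ (m - 1) := by
    calc ‖ξ - q i‖ * (c ^ (m - 1)) * (1 + ‖ξ‖) ^ (m - 1) =
        ‖ξ - q i‖ * (c * (1 + ‖ξ‖)) ^ (m - 1) := by rw [mul_pow]; ring
      _ ≤ ‖ξ - q i‖ * ∏ j ∈ Finset.univ.erase i, ‖ξ - q j‖ :=
          mul_le_mul_of_nonneg_left hlow (norm_nonneg _)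
      _ ≤ _ := hnorm
      _ = _ := by ring
  have hpos : 0 < (1 + ‖ξ‖) ^ (m - 1) := by positivity
  have h5 := le_of_mul_le_mul_right hfin hpos
  rw [div_mul_eq_mul_div, le_div_iff₀ (by positivity)]
  calc ‖ξ - q i‖ * c ^ (m - 1) ≤ (1 / ‖a‖) ^ (k + 1) * CE := h5
    _ = CE * (1 / ‖a‖) ^ (k + 1) := mul_comm _ _

/-! ### Laurent polynomials in `a` -/

/-- a Laurent polynomial in `a` with rational coefficients -/
def Lau (h : ℂ → ℂ) : Prop :=
  ∃ (N : ℕ) (c : ℚ[X]), ∀ a : ℂ, a ≠ 0 → h a = a ^ N * aeval (1 / a) c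

theorem Lau.add {h h' : ℂ → ℂ} (H : Lau h) (H' : Lau h') : Lau fun a => h a + h' a := by
  obtain ⟨N, c, hc⟩ := H
  obtain ⟨N', c', hc'⟩ := H'
  refine ⟨N + N', c * X ^ N' + c' * X ^ N, fun a ha => ?_⟩
  show h a + h' a = _
  rw [hc a ha, hc' a ha, map_add, map_mul, map_mul, map_pow, map_pow, aeval_X]
  have h1 : ∀ n : ℕ, a ^ n * (1 / a) ^ n = 1 := fun n => by
    rw [← mul_pow, mul_one_div_cancel ha, one_pow]
  rw [pow_add]
  calc a ^ N * aeval (1 / a) c + a ^ N' * aeval (1 / a) c' =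
      a ^ N * aeval (1 / a) c * (a ^ N' * (1 / a) ^ N') +
        a ^ N' * aeval (1 / a) c' * (a ^ N * (1 / a) ^ N) := by rw [h1, h1, mul_one, mul_one]
    _ = _ := by ring

theorem Lau.mul {h h' : ℂ → ℂ} (H : Lau h) (H' : Lau h') : Lau fun a => h a * h' a := by
  obtain ⟨N, c, hc⟩ := H
  obtain ⟨N', c', hc'⟩ := H'
  refine ⟨N + N', c * c', fun a ha => ?_⟩
  show h a * h' a = _
  rw [hc a ha, hc' a ha, map_mul, pow_add]
  ring

theorem Lau.neg {h : ℂ → ℂ} (H : Lau h) : Lau fun a => -h a := by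
  obtain ⟨N, c, hc⟩ := H
  refine ⟨N, -c, fun a ha => ?_⟩
  show -h a = _
  rw [hc a ha, map_neg, mul_neg]

theorem Lau.const (r : ℚ) : Lau fun _ => (r : ℂ) := ⟨0, C r, fun a _ => by simp⟩

/-- polynomial part -/
theorem polypart (c : ℚ[X]) (N : ℕ) : ∃ (R : ℚ[X]) (B : ℝ), 0 ≤ B ∧ ∀ a : ℂ, 1 ≤ ‖a‖ →
    ‖a ^ N * aeval (1 / a) c - aeval a R‖ ≤ B / ‖a‖ := by
  induction c using Polynomial.induction_on' with
  | add c c' ih ih' =>
    obtain ⟨R, B, hB0, hB⟩ := ih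
    obtain ⟨R', B', hB0', hB'⟩ := ih'
    refine ⟨R + R', B + B', by positivity, fun a ha => ?_⟩
    have e : a ^ N * aeval (1 / a) (c + c') - aeval a (R + R') =
        (a ^ N * aeval (1 / a) c - aeval a R) + (a ^ N * aeval (1 / a) c' - aeval a R') := by
      rw [map_add, map_add]; ring
    rw [e, add_div]
    exact (norm_add_le _ _).trans (add_le_add (hB a ha) (hB' a ha))
  | monomial n r =>
    rcases le_or_gt n N with hn | hn
    · refine ⟨monomial (N - n) r, 0, le_rfl, fun a ha => ?_⟩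
      have ha0 : a ≠ 0 := norm_pos_iff.1 (by linarith)
      obtain ⟨d, rfl⟩ := Nat.exists_eq_add_of_le hn
      rw [show n + d - n = d by omega, aeval_monomial, aeval_monomial]
      have h1 : a ^ n * (1 / a) ^ n = 1 := by rw [← mul_pow, mul_one_div_cancel ha0, one_pow]
      have e : a ^ (n + d) * ((algebraMap ℚ ℂ) r * (1 / a) ^ n) - (algebraMap ℚ ℂ) r * a ^ d = 0 := by
        calc a ^ (n + d) * ((algebraMap ℚ ℂ) r * (1 / a) ^ n) - (algebraMap ℚ ℂ) r * a ^ d =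
            (a ^ n * (1 / a) ^ n - 1) * ((algebraMap ℚ ℂ) r * a ^ d) := by rw [pow_add]; ring
          _ = 0 := by rw [h1, sub_self, zero_mul]
      rw [e]
      simp
    · refine ⟨0, ‖((algebraMap ℚ ℂ) r)‖, norm_nonneg _, fun a ha => ?_⟩
      have hapos : 0 < ‖a‖ := by linarith
      have ha0 : a ≠ 0 := norm_pos_iff.1 hapos
      obtain ⟨d, rfl⟩ := Nat.exists_eq_add_of_le hn
      rw [aeval_monomial, map_zero, sub_zero, norm_mul, norm_mul, norm_pow, norm_pow, norm_div,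
        norm_one]
      have h1 : ‖a‖ ^ N * (1 / ‖a‖) ^ N = 1 := by
        rw [← mul_pow, mul_one_div_cancel hapos.ne', one_pow]
      have h2 : (1 / ‖a‖) ^ d ≤ 1 := pow_le_one₀ (by positivity) (by
        rw [div_le_one hapos]; exact ha)
      calc ‖a‖ ^ N * (‖(algebraMap ℚ ℂ) r‖ * (1 / ‖a‖) ^ (N.succ + d)) =
          (‖a‖ ^ N * (1 / ‖a‖) ^ N) * (‖(algebraMap ℚ ℂ) r‖ * (1 / ‖a‖)) * (1 / ‖a‖) ^ d := by
            rw [pow_add, pow_succ]; ring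
        _ ≤ (‖a‖ ^ N * (1 / ‖a‖) ^ N) * (‖(algebraMap ℚ ℂ) r‖ * (1 / ‖a‖)) * 1 :=
            mul_le_mul_of_nonneg_left h2 (by positivity)
        _ = _ := by rw [h1]; ring

theorem Lau.poly {h : ℂ → ℂ} (H : Lau h) : ∃ (R : ℚ[X]) (B : ℝ), 0 ≤ B ∧ ∀ a : ℂ, 1 ≤ ‖a‖ →
    ‖h a - aeval a R‖ ≤ B / ‖a‖ := by
  obtain ⟨N, c, hc⟩ := H
  obtain ⟨R, B, hB0, hB⟩ := polypart c N
  refine ⟨R, B, hB0, fun a ha => ?_⟩
  rw [hc a (norm_pos_iff.1 (by linarith))]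
  exact hB a ha

/-- common denominator -/
theorem denom (R : ℚ[X]) : ∃ D : ℕ, 0 < D ∧ ∀ a : ℤ, ∃ z : ℤ, (D : ℚ) * R.eval (a : ℚ) = z := by
  induction R using Polynomial.induction_on' with
  | add R R' ih ih' =>
    obtain ⟨D, hD, h⟩ := ih
    obtain ⟨D', hD', h'⟩ := ih'
    refine ⟨D * D', Nat.mul_pos hD hD', fun a => ?_⟩
    obtain ⟨z, hz⟩ := h a
    obtain ⟨z', hz'⟩ := h' a
    refine ⟨D' * z + D * z', ?_⟩
    push_cast
    rw [eval_add, ← hz, ← hz']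
    ring
  | monomial n r =>
    refine ⟨r.den, r.den_pos, fun a => ⟨r.num * a ^ n, ?_⟩⟩
    rw [eval_monomial]
    push_cast
    rw [← mul_assoc, mul_comm (r.den : ℚ) r, Rat.mul_den_eq_num]

/-- an integer close to the value of a rational polynomial is equal to it -/
theorem close_eq (R : ℚ[X]) (B : ℝ) : ∃ A : ℝ, 1 ≤ A ∧ ∀ (a g : ℤ), A ≤ |(a : ℝ)| →
    ‖(g : ℂ) - aeval (a : ℂ) R‖ ≤ B / |(a : ℝ)| → (g : ℚ) = R.eval (a : ℚ) := by
  obtain ⟨D, hD, hz⟩ := denom R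
  refine ⟨D * |B| + 1, by have : 0 ≤ (D : ℝ) * |B| := by positivity
                          linarith, fun a g ha hg => ?_⟩
  obtain ⟨z, hz⟩ := hz a
  have hDpos : (0 : ℝ) < D := by exact_mod_cast hD
  have hapos : 0 < |(a : ℝ)| := by
    have : 0 ≤ (D : ℝ) * |B| := by positivity
    linarith
  have h1 : aeval (a : ℂ) R = ((R.eval (a : ℚ) : ℚ) : ℂ) := by
    have h2 := Polynomial.eval_map_apply (algebraMap ℚ ℂ) (a : ℚ) (p := R)
    rw [Polynomial.eval_map_algebraMap] at h2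
    simpa using h2
  have h3 : (D : ℂ) * ((g : ℂ) - aeval (a : ℂ) R) = ((D * g - z : ℤ) : ℂ) := by
    rw [h1, mul_sub]
    have h4 : (D : ℂ) * ((R.eval (a : ℚ) : ℚ) : ℂ) = (z : ℂ) := by exact_mod_cast congrArg (Rat.cast : ℚ → ℂ) hz
    rw [h4]
    push_cast
    ring
  have h5 : |((D * g - z : ℤ) : ℝ)| < 1 := by
    rw [← Complex.norm_intCast, ← h3, norm_mul, Complex.norm_natCast]
    calc (D : ℝ) * ‖(g : ℂ) - aeval (a : ℂ) R‖ ≤ D * (B / |(a : ℝ)|) :=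
          mul_le_mul_of_nonneg_left hg hDpos.le
      _ ≤ D * (|B| / |(a : ℝ)|) := by
          refine mul_le_mul_of_nonneg_left ?_ hDpos.le
          exact div_le_div_of_nonneg_right (le_abs_self B) hapos.le
      _ = D * |B| / |(a : ℝ)| := by ring
      _ < 1 := by rw [div_lt_one hapos]; linarith
  have h6 : (D * g - z : ℤ) = 0 := by
    rw [← Int.cast_abs] at h5
    have : |(D * g - z : ℤ)| < 1 := by exact_mod_cast h5
    exact Int.abs_lt_one_iff.1 this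
  have hD0 : (D : ℚ) ≠ 0 := by exact_mod_cast hD.ne'
  have h7 : (D : ℚ) * g = D * R.eval (a : ℚ) := by
    rw [hz]
    have : (D : ℤ) * g = z := by linarith
    exact_mod_cast this
  exact mul_left_cancel₀ hD0 h7

end Pool.Agent.W803.LV
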