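import Pool.Agent.W803.LV.B

set_option autoImplicit false

/-! LV-3: all large specialisations of a family split at infinity are irreducible (helper803). -/

namespace Pool.Agent.W803.LV
open Polynomial

theorem coeff_zero_mul (b : ℂ) (F : ℂ[X]) : ((X - C b) * F).coeff 0 = -b * F.coeff 0 := by
  rw [mul_coeff_zero]
  simp

theorem coeff_succ_mul (b : ℂ) (F : ℂ[X]) (s : ℕ) :
    ((X - C b) * F).coeff (s + 1) = F.coeff s - b * F.coeff (s + 1) := by
  rw [sub_mul, coeff_sub, coeff_X_mul, coeff_C_mul]

theorem coeff_lau {ι : Type} (J : Finset ι) (b : ι → ℂ → ℂ) (hb : ∀ j, Lau (b j)) :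
    ∀ s, Lau fun a => (∏ j ∈ J, (X - C (b j a))).coeff s := by
  classical
  induction J using Finset.induction_on with
  | empty =>
    intro s
    simp only [Finset.prod_empty, coeff_one]
    by_cases h : s = 0
    · simpa [h] using Lau.const 1
    · simpa [h] using Lau.const 0
  | insert j J hj ih =>
    intro s
    simp only [Finset.prod_insert hj]
    cases s with
    | zero =>
      simp only [coeff_zero_mul]
      exact (hb j).neg.mul (ih 0)
    | succ s =>
      simp only [coeff_succ_mul]
      have e : (fun a => (∏ j ∈ J, (X - C (b j a))).coeff s -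
          b j a * (∏ j ∈ J, (X - C (b j a))).coeff (s + 1)) =
          fun a => (∏ j ∈ J, (X - C (b j a))).coeff s +
            -(b j a * (∏ j ∈ J, (X - C (b j a))).coeff (s + 1)) :=
        funext fun a => sub_eq_add_neg _ _
      rw [e]
      exact (ih s).add ((hb j).mul (ih (s + 1))).neg

theorem coeff_bd {ι : Type} (J : Finset ι) (x : ι → ℂ) {T : ℝ} (hT : 0 ≤ T)
    (hx : ∀ j ∈ J, ‖x j‖ ≤ T) : ∀ s, ‖(∏ j ∈ J, (X - C (x j))).coeff s‖ ≤ (1 + T) ^ J.card := by
  classical
  induction J using Finset.induction_on with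
  | empty =>
    intro s
    simp only [Finset.prod_empty, coeff_one, Finset.card_empty, pow_zero]
    split_ifs <;> simp
  | insert j J hj ih =>
    have ih := ih fun i hi => hx i (Finset.mem_insert_of_mem hi)
    have hxj := hx j (Finset.mem_insert_self _ _)
    intro s
    rw [Finset.prod_insert hj, Finset.card_insert_of_notMem hj, pow_succ]
    have hp : 0 ≤ (1 + T) ^ J.card := by positivity
    have hm : ∀ i, ‖x j * (∏ j ∈ J, (X - C (x j))).coeff i‖ ≤ T * (1 + T) ^ J.card := by
      intro i
      rw [norm_mul]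
      exact mul_le_mul hxj (ih i) (norm_nonneg _) hT
    cases s with
    | zero =>
      rw [coeff_zero_mul, neg_mul, norm_neg]
      refine (hm 0).trans ?_
      nlinarith
    | succ s =>
      rw [coeff_succ_mul]
      refine (norm_sub_le _ _).trans ?_
      have := ih s
      have := hm (s + 1)
      linarith

theorem coeff_diff {ι : Type} (J : Finset ι) (x x' : ι → ℂ) {T δ : ℝ} (hT : 0 ≤ T) (hδ : 0 ≤ δ)
    (hx : ∀ j ∈ J, ‖x j‖ ≤ T) (hx' : ∀ j ∈ J, ‖x' j‖ ≤ T) (hd : ∀ j ∈ J, ‖x j - x' j‖ ≤ δ) :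
    ∀ s, ‖(∏ j ∈ J, (X - C (x j))).coeff s - (∏ j ∈ J, (X - C (x' j))).coeff s‖ ≤
      J.card * (1 + T) ^ J.card * δ := by
  classical
  induction J using Finset.induction_on with
  | empty => intro s; simp
  | insert j J hj ih =>
    have ih := ih (fun i hi => hx i (Finset.mem_insert_of_mem hi))
      (fun i hi => hx' i (Finset.mem_insert_of_mem hi))
      (fun i hi => hd i (Finset.mem_insert_of_mem hi))
    have hb := coeff_bd J x' hT fun i hi => hx' i (Finset.mem_insert_of_mem hi)
    have hxj := hx j (Finset.mem_insert_self _ _)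
    have hdj := hd j (Finset.mem_insert_self _ _)
    intro s
    rw [Finset.prod_insert hj, Finset.prod_insert hj, Finset.card_insert_of_notMem hj, pow_succ]
    have hp : 0 ≤ (1 + T) ^ J.card := by positivity
    have hm : ∀ i, ‖x j * (∏ j ∈ J, (X - C (x j))).coeff i -
        x' j * (∏ j ∈ J, (X - C (x' j))).coeff i‖ ≤ T * (J.card * (1 + T) ^ J.card * δ) +
          δ * (1 + T) ^ J.card := by
      intro i
      have e : x j * (∏ j ∈ J, (X - C (x j))).coeff i - x' j * (∏ j ∈ J, (X - C (x' j))).coeff i =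
          x j * ((∏ j ∈ J, (X - C (x j))).coeff i - (∏ j ∈ J, (X - C (x' j))).coeff i) +
          (x j - x' j) * (∏ j ∈ J, (X - C (x' j))).coeff i := by ring
      rw [e]
      refine (norm_add_le _ _).trans (add_le_add ?_ ?_)
      · rw [norm_mul]
        exact mul_le_mul hxj (ih i) (norm_nonneg _) hT
      · rw [norm_mul]
        exact mul_le_mul hdj (hb i) (norm_nonneg _) hδ
    have hfin : T * (J.card * (1 + T) ^ J.card * δ) + δ * (1 + T) ^ J.card +
        J.card * (1 + T) ^ J.card * δ ≤ ((J.card + 1 : ℕ) : ℝ) * ((1 + T) ^ J.card * (1 + T)) * δ := by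
      have h1 : 0 ≤ δ * (1 + T) ^ J.card * T := by positivity
      push_cast
      nlinarith
    cases s with
    | zero =>
      rw [coeff_zero_mul, coeff_zero_mul]
      have e : -x j * (∏ j ∈ J, (X - C (x j))).coeff 0 - -x' j * (∏ j ∈ J, (X - C (x' j))).coeff 0 =
          -(x j * (∏ j ∈ J, (X - C (x j))).coeff 0 - x' j * (∏ j ∈ J, (X - C (x' j))).coeff 0) := by
        ring
      rw [e, norm_neg]
      have h2 : 0 ≤ J.card * (1 + T) ^ J.card * δ := by positivity
      linarith [hm 0]
    | succ s =>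
      rw [coeff_succ_mul, coeff_succ_mul]
      have e : (∏ j ∈ J, (X - C (x j))).coeff s - x j * (∏ j ∈ J, (X - C (x j))).coeff (s + 1) -
          ((∏ j ∈ J, (X - C (x' j))).coeff s - x' j * (∏ j ∈ J, (X - C (x' j))).coeff (s + 1)) =
          ((∏ j ∈ J, (X - C (x j))).coeff s - (∏ j ∈ J, (X - C (x' j))).coeff s) -
          (x j * (∏ j ∈ J, (X - C (x j))).coeff (s + 1) -
            x' j * (∏ j ∈ J, (X - C (x' j))).coeff (s + 1)) := by ring
      rw [e]
      refine (norm_sub_le _ _).trans ?_
      linarith [hm (s + 1), ih s]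

/-- specialisations are monic -/
theorem monic_spec {m : ℕ} (ρ : Fin m → ℤ) (P : MvPolynomial (Fin 2) ℤ) (hdeg : P.totalDegree = m)
    (htop : MvPolynomial.homogeneousComponent m P
      = ∏ i, (MvPolynomial.X 0 - MvPolynomial.C (ρ i) * MvPolynomial.X 1))
    (S : Type) [CommRing S] [Nontrivial S] (t : S) :
    (MvPolynomial.aeval ![(X : S[X]), C t] P).Monic ∧
      (MvPolynomial.aeval ![(X : S[X]), C t] P).natDegree = m := by
  classical
  have hsum := MvPolynomial.sum_homogeneousComponent P
  rw [hdeg, Finset.sum_range_succ] at hsum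
  have htop' : MvPolynomial.aeval ![(X : S[X]), C t] (MvPolynomial.homogeneousComponent m P) =
      ∏ i, (X - C ((ρ i : S) * t)) := by
    rw [htop, map_prod]
    refine Finset.prod_congr rfl fun i _ => ?_
    simp
  have hmon : (∏ i, (X - C ((ρ i : S) * t)) : S[X]).Monic :=
    monic_prod_of_monic _ _ fun i _ => monic_X_sub_C _
  have hd : (∏ i, (X - C ((ρ i : S) * t)) : S[X]).natDegree = m := by
    rw [natDegree_prod_of_monic _ _ fun i _ => monic_X_sub_C _,
      Finset.sum_congr rfl fun i _ => natDegree_X_sub_C _]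
    simp
  have hd' : (∏ i, (X - C ((ρ i : S) * t)) : S[X]).degree = m := by
    rw [degree_eq_natDegree hmon.ne_zero, hd]
  have hrest : (MvPolynomial.aeval ![(X : S[X]), C t]
      (∑ j ∈ Finset.range m, MvPolynomial.homogeneousComponent j P)).degree < m := by
    rw [map_sum]
    refine (degree_sum_le _ _).trans_lt ?_
    rw [Finset.sup_lt_iff (by exact WithBot.bot_lt_coe m)]
    intro j hj
    rw [Finset.mem_range] at hj
    refine degree_le_natDegree.trans_lt ?_
    refine lt_of_le_of_lt ?_ (by exact_mod_cast hj : ((j : ℕ) : WithBot ℕ) < m)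
    have h1 : (MvPolynomial.aeval ![(X : S[X]), C t]
        (MvPolynomial.homogeneousComponent j P)).natDegree ≤ j := by
      have hF := MvPolynomial.homogeneousComponent_isHomogeneous j P
      rw [MvPolynomial.aeval_def, MvPolynomial.eval₂_eq']
      refine natDegree_sum_le_of_forall_le _ _ fun d hd => ?_
      have h2 : d 0 + d 1 = j := by
        have h3 := hF (MvPolynomial.mem_support_iff.1 hd)
        rw [Finsupp.weight_apply, Finsupp.sum_fintype _ _ (by simp)] at h3
        simpa using h3
      rw [Fin.prod_univ_two]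
      have e : (algebraMap ℤ S[X]) (MvPolynomial.coeff d (MvPolynomial.homogeneousComponent j P)) *
          ((![(X : S[X]), C t] : Fin 2 → S[X]) 0 ^ d 0 *
            (![(X : S[X]), C t] : Fin 2 → S[X]) 1 ^ d 1) =
          C (algebraMap ℤ S (MvPolynomial.coeff d (MvPolynomial.homogeneousComponent j P)) *
            t ^ d 1) * X ^ d 0 := by
        simp
        ring
      rw [e]
      exact (natDegree_C_mul_X_pow_le _ _).trans (by omega)
    exact_mod_cast h1
  have hP : MvPolynomial.aeval ![(X : S[X]), C t] P = MvPolynomial.aeval ![(X : S[X]), C t]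
      (∑ j ∈ Finset.range m, MvPolynomial.homogeneousComponent j P) +
      ∏ i, (X - C ((ρ i : S) * t)) := by
    rw [← htop', ← map_add, hsum]
  rw [hP]
  have hlt : (MvPolynomial.aeval ![(X : S[X]), C t]
      (∑ j ∈ Finset.range m, MvPolynomial.homogeneousComponent j P)).degree <
      (∏ i, (X - C ((ρ i : S) * t)) : S[X]).degree := by rw [hd']; exact hrest
  exact ⟨hmon.add_of_right hlt, by
    rw [natDegree_add_eq_right_of_degree_lt hlt, hd]⟩

/-- maps of specialisations -/
theorem map_spec (P : MvPolynomial (Fin 2) ℤ) {S S' : Type} [CommRing S] [CommRing S']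
    (f : S →+* S') (t : S) :
    (MvPolynomial.aeval ![(X : S[X]), C t] P).map f = MvPolynomial.aeval ![(X : S'[X]), C (f t)] P := by
  have h1 := MvPolynomial.map_aeval (![(X : S[X]), C t]) (mapRingHom f) P
  rw [coe_mapRingHom] at h1
  rw [h1, MvPolynomial.aeval_def, MvPolynomial.coe_eval₂Hom]
  congr 1
  · exact RingHom.ext_int _ _
  · funext i
    fin_cases i
    · simp
    · simp

/-- the isomorphism `ℚ[Y, T] ≃ ℚ[T][Y]` -/
theorem irr_two (P : MvPolynomial (Fin 2) ℤ)
    (h : Irreducible (MvPolynomial.map (Int.castRingHom ℚ) P)) :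
    Irreducible (MvPolynomial.aeval ![(X : ℚ[X][X]), C X] P) := by
  let E : MvPolynomial (Fin 2) ℚ ≃ₐ[ℚ] ℚ[X][X] :=
    (MvPolynomial.finSuccEquiv ℚ 1).trans
      (Polynomial.mapAlgEquiv (MvPolynomial.uniqueAlgEquiv ℚ (Fin 1)))
  have h1 : E (MvPolynomial.map (Int.castRingHom ℚ) P) =
      MvPolynomial.aeval ![(X : ℚ[X][X]), C X] P := by
    have h2 : (E : MvPolynomial (Fin 2) ℚ →+* ℚ[X][X]).comp (MvPolynomial.map (Int.castRingHom ℚ)) =
        ((MvPolynomial.aeval ![(X : ℚ[X][X]), C X] :
          MvPolynomial (Fin 2) ℤ →ₐ[ℤ] ℚ[X][X]) : MvPolynomial (Fin 2) ℤ →+* ℚ[X][X]) := by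
      have hE : ∀ q, E q = Polynomial.map (MvPolynomial.uniqueAlgEquiv ℚ (Fin 1) : _ →+* _)
          (MvPolynomial.finSuccEquiv ℚ 1 q) := fun _ => rfl
      refine MvPolynomial.ringHom_ext' (RingHom.ext_int _ _) fun i => ?_
      rw [RingHom.comp_apply, MvPolynomial.map_X]
      show E (MvPolynomial.X i) = MvPolynomial.aeval ![(X : ℚ[X][X]), C X] (MvPolynomial.X i)
      rw [MvPolynomial.aeval_X, hE]
      fin_cases i
      · show Polynomial.map _ (MvPolynomial.finSuccEquiv ℚ 1 (MvPolynomial.X 0)) = X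
        rw [MvPolynomial.finSuccEquiv_X_zero, Polynomial.map_X]
      · show Polynomial.map _ (MvPolynomial.finSuccEquiv ℚ 1 (MvPolynomial.X (Fin.succ 0))) = C X
        rw [MvPolynomial.finSuccEquiv_X_succ, Polynomial.map_C]
        congr 1
        exact MvPolynomial.eval₂_X _ _ _
    exact congrArg (fun φ => φ P) h2
  rw [← h1]
  exact (MulEquiv.irreducible_iff (E : MvPolynomial (Fin 2) ℚ ≃* ℚ[X][X])).2 h

/-- complex roots as a function on `Fin e` -/
theorem exists_roots (G : ℂ[X]) (hG : G.Monic) : ∃ η : Fin G.natDegree → ℂ,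
    G = ∏ j, (X - C (η j)) := by
  have h1 : G = (G.roots.map fun a => X - C a).prod := by
    have h := IsAlgClosed.splits G
    exact (h.eq_prod_roots_of_monic hG)
  have h2 : G.roots.card = G.natDegree := by
    exact (splits_iff_card_roots.1 (IsAlgClosed.splits G))
  obtain ⟨l, hl⟩ := Quot.exists_rep G.roots
  have hl' : (l : Multiset ℂ) = G.roots := hl
  rw [← hl'] at h1 h2
  rw [Multiset.coe_card] at h2
  refine ⟨fun j => l.get (Fin.cast h2.symm j), h1.trans ?_⟩
  rw [Multiset.map_coe, Multiset.prod_coe]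
  have h3 : ∏ j : Fin G.natDegree, (X - C (l.get (Fin.cast h2.symm j)) : ℂ[X]) =
      ∏ j : Fin l.length, (X - C (l.get j)) :=
    Fintype.prod_equiv (finCongr h2.symm) _ _ fun _ => rfl
  have h4 : (List.map (fun a => (X - C a : ℂ[X])) l).prod = ∏ j : Fin l.length, (X - C (l.get j)) := by
    conv_lhs => rw [← List.ofFn_get l]
    rw [List.map_ofFn, List.prod_ofFn]
    rfl
  rw [h4]
  exact h3.symm

end Pool.Agent.W803.LV
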